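import Pool.Agent.W761.CB.Stms
import Pool.Agent.W417.CB.Ebc
import Pool.Agent.W975.CB.Ms
import Pool.Agent.W366.CB.Lam

/-!
# CB-DE: the increase of the energy by a measurement
-/

set_option autoImplicit false

open MeasureTheory
open scoped ENNReal

namespace Pool.Agent.W741.CB

open Pool.Agent.W761.CB

theorem ebc : S_EBC :=
  Pool.Agent.W417.CB.proof_ebc Pool.Agent.W975.CB.proof_ms
    (Pool.Agent.W366.CB.proof_lam Pool.Agent.W975.CB.proof_ms)

section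
variable {n : ℕ} {L : ℝ} [Fact (0 < L)]

theorem dE_tri (F : Multiset (Tor n L) → ℂ) (x y z : Tor n L) (hF : EB F) :
    dE volume F x z ≤ 2 * dE volume F x y + 2 * dE volume F y z := by
  have hm : ∀ a b : Tor n L,
      Measurable (fun γ : Cf (Tor n L) => ‖F (a ::ₘ ms γ) - F (b ::ₘ ms γ)‖ₑ ^ 2) := by
    intro a b
    have h1 := (ebc (Tor n L) volume F F hF hF).1 a
    have h2 := (ebc (Tor n L) volume F F hF hF).1 b
    exact ((h1.meas.sub h2.meas).enorm).pow_const 2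
  unfold dE nE
  rw [← lintegral_const_mul _ (hm x y), ← lintegral_const_mul _ (hm y z),
    ← lintegral_add_left ((hm x y).const_mul 2)]
  apply lintegral_mono
  intro γ
  have h : ‖F (x ::ₘ ms γ) - F (z ::ₘ ms γ)‖ ^ 2 ≤
      2 * ‖F (x ::ₘ ms γ) - F (y ::ₘ ms γ)‖ ^ 2 + 2 * ‖F (y ::ₘ ms γ) - F (z ::ₘ ms γ)‖ ^ 2 := by
    have h1 : ‖F (x ::ₘ ms γ) - F (z ::ₘ ms γ)‖ ≤
        ‖F (x ::ₘ ms γ) - F (y ::ₘ ms γ)‖ + ‖F (y ::ₘ ms γ) - F (z ::ₘ ms γ)‖ := by
      have := norm_add_le (F (x ::ₘ ms γ) - F (y ::ₘ ms γ)) (F (y ::ₘ ms γ) - F (z ::ₘ ms γ))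
      simpa using this
    have h0 := norm_nonneg (F (x ::ₘ ms γ) - F (z ::ₘ ms γ))
    nlinarith [sq_nonneg (‖F (x ::ₘ ms γ) - F (y ::ₘ ms γ)‖ -
      ‖F (y ::ₘ ms γ) - F (z ::ₘ ms γ)‖)]
  have e : ∀ w : ℂ, ‖w‖ₑ ^ 2 = ENNReal.ofReal (‖w‖ ^ 2) := by
    intro w
    rw [ENNReal.ofReal_pow (norm_nonneg _), ofReal_norm]
  have e2 : (2 : ℝ≥0∞) = ENNReal.ofReal 2 := by simp
  show ‖F (x ::ₘ ms γ) - F (z ::ₘ ms γ)‖ₑ ^ 2 ≤ 2 * ‖F (x ::ₘ ms γ) - F (y ::ₘ ms γ)‖ₑ ^ 2 +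
    2 * ‖F (y ::ₘ ms γ) - F (z ::ₘ ms γ)‖ₑ ^ 2
  rw [e, e, e, e2, ← ENNReal.ofReal_mul (by norm_num), ← ENNReal.ofReal_mul (by norm_num),
    ← ENNReal.ofReal_add (by positivity) (by positivity)]
  exact ENNReal.ofReal_le_ofReal h

attribute [local irreducible] dE nE

theorem meas_dE {F : Multiset (Tor n L) → ℂ} (hF : EB F) :
    Measurable (fun p : Tor n L × Tor n L => dE volume F p.1 p.2) :=
  (ebc (Tor n L) volume F F hF hF).2.2.2.2.2.2.2.2.2.1

theorem meas_an {F : Multiset (Tor n L) → ℂ} (hF : EB F) :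
    Measurable (fun x : Tor n L => nE volume (an x F)) :=
  (ebc (Tor n L) volume F F hF hF).2.2.2.2.2.2.2.2.1

theorem meas_an2 {F : Multiset (Tor n L) → ℂ} (hF : EB F) :
    Measurable (fun p : Tor n L × Tor n L => nE volume (an p.2 (an p.1 F))) :=
  (ebc (Tor n L) volume F F hF hF).2.2.2.2.2.2.2.2.2.2.1

theorem meas_shift {F : Multiset (Tor n L) → ℂ} (hF : EB F) (h : Tor n L) :
    Measurable (fun x : Tor n L => dE volume F (x + h) x) := by
  have h1 : Measurable (fun x : Tor n L => (x + h, x)) :=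
    (measurable_id.add_const h).prodMk measurable_id
  exact (meas_dE hF).comp h1

theorem meas_shift2 (hTF : S_TF) {F : Multiset (Tor n L) → ℂ} (hF : EB F) :
    Measurable (fun q : (Fin n → ℝ) × Tor n L => dE volume F (q.2 + pr L q.1) q.2) := by
  have h1 : Measurable (fun q : (Fin n → ℝ) × Tor n L => (q.2 + pr L q.1, q.2)) :=
    (measurable_snd.add ((hTF n L).2.1.comp measurable_fst)).prodMk measurable_snd
  exact (meas_dE hF).comp h1

theorem meas_int (hTF : S_TF) {F : Multiset (Tor n L) → ℂ} (hF : EB F) :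
    Measurable (fun z : Fin n → ℝ => ∫⁻ x, dE volume F (x + pr L z) x) :=
  (meas_shift2 hTF hF).lintegral_prod_right'

/-- the measurement of the differences, integrated -/
theorem kin_int (hTF : S_TF) {I : Type} [Fintype I] {u : I → Tor n L → ℝ} {ω M : ℝ} (hω : 0 < ω)
    {A : Type} [Countable A] {Lα : A → (Multiset (Tor n L) → ℂ) → Multiset (Tor n L) → ℂ}
    {c : A → I → ℂ} (hI : IsIns volume u ω M Lα c) (s : (Fin n → ℝ) → ℝ)
    (hs : ∀ (x : Tor n L) (z : Fin n → ℝ), ∑ i, (u i (x + pr L z) - u i x) ^ 2 ≤ s z)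
    {F : Multiset (Tor n L) → ℂ} (hF : EB F) (z : Fin n → ℝ) :
    ∑' α, ∫⁻ x, dE volume (Lα α F) (x + pr L z) x ≤
      (∫⁻ x, dE volume F (x + pr L z) x) +
        ENNReal.ofReal ω * ENNReal.ofReal (s z) * (nE volume F * ENNReal.ofReal (L ^ n)) := by
  rw [← lintegral_tsum (fun α => (meas_shift (hI.eb F hF α) _).aemeasurable)]
  calc ∫⁻ x, ∑' α, dE volume (Lα α F) (x + pr L z) x
      ≤ ∫⁻ x, (dE volume F (x + pr L z) x + ENNReal.ofReal (ω * s z) * nE volume F) := by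
        apply lintegral_mono
        intro x
        refine (hI.kin F hF (x + pr L z) x).trans ?_
        refine add_le_add le_rfl (mul_le_mul' (ENNReal.ofReal_le_ofReal ?_) le_rfl)
        exact mul_le_mul_of_nonneg_left (hs x z) hω.le
    _ = _ := by
        rw [lintegral_add_left (meas_shift hF _), lintegral_const, (hTF n L).1,
          ENNReal.ofReal_mul hω.le]
        congr 1
        ring

omit [Fact (0 < L)] in
theorem ec_two (c : Fin n) (h : ℝ) : ec L c (2 * h) = ec L c h + ec L c h := by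
  funext d
  simp only [ec, pr, Pi.add_apply]
  rw [← AddCircle.coe_add]
  congr 1
  by_cases hd : d = c
  · subst hd
    simp
    ring
  · simp [Pi.single_eq_of_ne hd]

theorem dbl (hTF : S_TF) {F : Multiset (Tor n L) → ℂ} (hF : EB F) (h : Tor n L) :
    ∫⁻ x, dE volume F (x + (h + h)) x ≤ 4 * ∫⁻ x, dE volume F (x + h) x := by
  have h1 : ∫⁻ x, dE volume F (x + (h + h)) (x + h) = ∫⁻ x, dE volume F (x + h) x := by
    have := (hTF n L).2.2.2.2.1 (fun x => dE volume F (x + h) x) (meas_shift hF h) h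
    rw [← this]
    congr 1
    funext x
    rw [add_assoc]
  have h2 : Measurable (fun x : Tor n L => (x + (h + h), x + h)) :=
    (measurable_id.add_const _).prodMk (measurable_id.add_const _)
  have hm : Measurable fun x : Tor n L => dE volume F (x + (h + h)) (x + h) :=
    (meas_dE hF).comp h2
  calc ∫⁻ x, dE volume F (x + (h + h)) x
      ≤ ∫⁻ x, (2 * dE volume F (x + (h + h)) (x + h) + 2 * dE volume F (x + h) x) :=
        lintegral_mono fun x => dE_tri F _ _ _ hF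
    _ = 2 * (∫⁻ x, dE volume F (x + (h + h)) (x + h)) + 2 * ∫⁻ x, dE volume F (x + h) x := by
        rw [lintegral_add_left (hm.const_mul 2), lintegral_const_mul _ hm,
          lintegral_const_mul _ (meas_shift hF h)]
    _ = _ := by
        rw [h1]
        ring

theorem mono_kin (hTF : S_TF) {F : Multiset (Tor n L) → ℂ} (hF : EB F) (c : Fin n) :
    Monotone fun k : ℕ => (4 : ℝ≥0∞) ^ k * ∫⁻ x, dE volume F (x + ec L c ((2 : ℝ)⁻¹ ^ k)) x := by
  apply monotone_nat_of_le_succ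
  intro k
  have h1 : ec L c ((2 : ℝ)⁻¹ ^ k) = ec L c ((2 : ℝ)⁻¹ ^ (k + 1)) + ec L c ((2 : ℝ)⁻¹ ^ (k + 1)) := by
    rw [← ec_two]
    congr 1
    rw [pow_succ]
    ring
  rw [h1]
  generalize ec L c ((2 : ℝ)⁻¹ ^ (k + 1)) = w
  rw [pow_succ, mul_assoc]
  exact mul_le_mul' le_rfl (dbl hTF hF w)

theorem tsum_iSup_mono {A : Type} (a : A → ℕ → ℝ≥0∞) (ha : ∀ α, Monotone (a α)) :
    ∑' α, ⨆ k, a α k = ⨆ k, ∑' α, a α k := by
  simp_rw [ENNReal.tsum_eq_iSup_sum]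
  rw [iSup_comm]
  congr 1
  funext S
  exact ENNReal.finsetSum_iSup_of_monotone (fun α => ha α)

/-- kinetic energy, one direction -/
theorem kp1 (hTF : S_TF) {I : Type} [Fintype I] {u : I → Tor n L → ℝ} {ω M : ℝ} (hω : 0 < ω)
    {A : Type} [Countable A] {Lα : A → (Multiset (Tor n L) → ℂ) → Multiset (Tor n L) → ℂ}
    {c : A → I → ℂ} (hI : IsIns volume u ω M Lα c) (s : (Fin n → ℝ) → ℝ)
    (hs : ∀ (x : Tor n L) (z : Fin n → ℝ), ∑ i, (u i (x + pr L z) - u i x) ^ 2 ≤ s z)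
    {F : Multiset (Tor n L) → ℂ} (hF : EB F) (d : Fin n) :
    ∑' α, (⨆ k : ℕ, (4 : ℝ≥0∞) ^ k *
        ∫⁻ x, dE volume (Lα α F) (x + ec L d ((2 : ℝ)⁻¹ ^ k)) x) ≤
      (⨆ k : ℕ, (4 : ℝ≥0∞) ^ k * ∫⁻ x, dE volume F (x + ec L d ((2 : ℝ)⁻¹ ^ k)) x) +
        ENNReal.ofReal ω * (nE volume F * ENNReal.ofReal (L ^ n)) *
          (⨆ k : ℕ, (4 : ℝ≥0∞) ^ k * ENNReal.ofReal (s (Pi.single d ((2 : ℝ)⁻¹ ^ k)))) := by
  rw [tsum_iSup_mono _ (fun α => mono_kin hTF (hI.eb F hF α) d)]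
  apply iSup_le
  intro k
  rw [ENNReal.tsum_mul_left]
  have h1 := kin_int hTF hω hI s hs hF (Pi.single d ((2 : ℝ)⁻¹ ^ k))
  refine (mul_le_mul' le_rfl h1).trans ?_
  rw [mul_add]
  refine add_le_add (le_iSup (fun k : ℕ => (4 : ℝ≥0∞) ^ k *
    ∫⁻ x, dE volume F (x + ec L d ((2 : ℝ)⁻¹ ^ k)) x) k) ?_
  have h2 : (4 : ℝ≥0∞) ^ k * (ENNReal.ofReal ω * ENNReal.ofReal (s (Pi.single d ((2 : ℝ)⁻¹ ^ k))) *
      (nE volume F * ENNReal.ofReal (L ^ n))) =
      ENNReal.ofReal ω * (nE volume F * ENNReal.ofReal (L ^ n)) *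
        ((4 : ℝ≥0∞) ^ k * ENNReal.ofReal (s (Pi.single d ((2 : ℝ)⁻¹ ^ k)))) := by ring
  rw [h2]
  exact mul_le_mul' le_rfl (le_iSup (fun k : ℕ => (4 : ℝ≥0∞) ^ k *
    ENNReal.ofReal (s (Pi.single d ((2 : ℝ)⁻¹ ^ k)))) k)

/-- kinetic energy -/
theorem kp (hTF : S_TF) {I : Type} [Fintype I] {u : I → Tor n L → ℝ} {ω M : ℝ} (hω : 0 < ω)
    {A : Type} [Countable A] {Lα : A → (Multiset (Tor n L) → ℂ) → Multiset (Tor n L) → ℂ}
    {c : A → I → ℂ} (hI : IsIns volume u ω M Lα c) (s : (Fin n → ℝ) → ℝ)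
    (hs : ∀ (x : Tor n L) (z : Fin n → ℝ), ∑ i, (u i (x + pr L z) - u i x) ^ 2 ≤ s z)
    {F : Multiset (Tor n L) → ℂ} (hF : EB F) :
    ∑' α, Kp (Lα α F) ≤ Kp F + ENNReal.ofReal ω * (nE volume F * ENNReal.ofReal (L ^ n)) *
      ∑ d : Fin n, (⨆ k : ℕ, (4 : ℝ≥0∞) ^ k *
        ENNReal.ofReal (s (Pi.single d ((2 : ℝ)⁻¹ ^ k)))) := by
  unfold Kp
  rw [Summable.tsum_finsetSum (fun _ _ => ENNReal.summable), Finset.mul_sum,
    ← Finset.sum_add_distrib]
  exact Finset.sum_le_sum fun d _ => kp1 hTF hω hI s hs hF d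

/-- hopping energy -/
theorem hp (hTF : S_TF) {K : (Fin n → ℝ) → ℝ≥0∞} (hK : Measurable K)
    {I : Type} [Fintype I] {u : I → Tor n L → ℝ} {ω M : ℝ} (hω : 0 < ω)
    {A : Type} [Countable A] {Lα : A → (Multiset (Tor n L) → ℂ) → Multiset (Tor n L) → ℂ}
    {c : A → I → ℂ} (hI : IsIns volume u ω M Lα c) (s : (Fin n → ℝ) → ℝ) (hsm : Measurable s)
    (hs : ∀ (x : Tor n L) (z : Fin n → ℝ), ∑ i, (u i (x + pr L z) - u i x) ^ 2 ≤ s z)
    {F : Multiset (Tor n L) → ℂ} (hF : EB F) :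
    ∑' α, Hp K (Lα α F) ≤ Hp K F + ENNReal.ofReal ω * (nE volume F * ENNReal.ofReal (L ^ n)) *
      (2⁻¹ * ∫⁻ z, K z * ENNReal.ofReal (s z)) := by
  unfold Hp
  have hm : ∀ G : Multiset (Tor n L) → ℂ, EB G →
      Measurable (fun z : Fin n → ℝ => K z * ∫⁻ x, dE volume G (x + pr L z) x) :=
    fun G hG => hK.mul (meas_int hTF hG)
  rw [ENNReal.tsum_mul_left, ← lintegral_tsum (fun α => (hm _ (hI.eb F hF α)).aemeasurable)]
  have h1 : ∫⁻ z, ∑' α, K z * ∫⁻ x, dE volume (Lα α F) (x + pr L z) x ≤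
      ∫⁻ z, (K z * (∫⁻ x, dE volume F (x + pr L z) x) +
        (ENNReal.ofReal ω * (nE volume F * ENNReal.ofReal (L ^ n))) *
          (K z * ENNReal.ofReal (s z))) := by
    apply lintegral_mono
    intro z
    dsimp only
    rw [ENNReal.tsum_mul_left]
    refine (mul_le_mul' le_rfl (kin_int hTF hω hI s hs hF z)).trans (le_of_eq ?_)
    ring
  refine (mul_le_mul' le_rfl h1).trans (le_of_eq ?_)
  have hm2 : Measurable (fun z : Fin n → ℝ => K z * ENNReal.ofReal (s z)) :=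
    hK.mul hsm.ennreal_ofReal
  rw [lintegral_add_left (hm F hF), lintegral_const_mul _ hm2]
  ring

omit [Fact (0 < L)] in
theorem tdist_symm (x y : Tor n L) : tdist x y = tdist y x := by
  unfold tdist
  congr 1
  refine Finset.sum_congr rfl fun c _ => ?_
  rw [norm_sub_rev]

/-- potential energy, abstract form -/
theorem vp_abs {X : Type} [MeasurableSpace X] (ν : Measure X) [IsFiniteMeasure ν]
    {A : Type} [Countable A] (w : X → X → ℝ≥0∞) (P : A → X → X → ℝ≥0∞) (P0 : X → X → ℝ≥0∞)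
    (q : X → ℝ≥0∞) (a b N0 V : ℝ≥0∞)
    (hw : Measurable (fun p : X × X => w p.1 p.2))
    (hP : ∀ α, Measurable (fun p : X × X => P α p.1 p.2))
    (hP0 : Measurable (fun p : X × X => P0 p.1 p.2)) (hq : Measurable q)
    (hsym : ∀ x y, w x y = w y x) (hwb : ∀ x, ∫⁻ y, w x y ∂ν ≤ V)
    (h : ∀ x y, ∑' α, P α x y ≤ P0 x y + a * (q x + q y) + b * N0) :
    ∑' α, ∫⁻ x, ∫⁻ y, w x y * P α x y ∂ν ∂ν ≤ (∫⁻ x, ∫⁻ y, w x y * P0 x y ∂ν ∂ν) +
      (a * (V * ∫⁻ x, q x ∂ν) + (a * (V * ∫⁻ x, q x ∂ν) + b * N0 * V * ν Set.univ)) := by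
  have hm : ∀ α, Measurable (fun p : X × X => w p.1 p.2 * P α p.1 p.2) := fun α => hw.mul (hP α)
  have hm0 : Measurable (fun p : X × X => w p.1 p.2 * P0 p.1 p.2) := hw.mul hP0
  have hm2 : Measurable (fun p : X × X => w p.1 p.2 * q p.2) := hw.mul (hq.comp measurable_snd)
  have hmx : ∀ α x, Measurable (fun y : X => w x y * P α x y) :=
    fun α x => (hm α).comp measurable_prodMk_left
  have hm0x : ∀ x, Measurable (fun y : X => w x y * P0 x y) :=
    fun x => hm0.comp measurable_prodMk_left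
  have hm2x : ∀ x, Measurable (fun y : X => w x y * q y) :=
    fun x => hm2.comp measurable_prodMk_left
  have hwx : ∀ x, Measurable (fun y : X => w x y) :=
    fun x => hw.comp measurable_prodMk_left
  have hmi : ∀ α, Measurable (fun x : X => ∫⁻ y, w x y * P α x y ∂ν) :=
    fun α => (hm α).lintegral_prod_right'
  have hmi0 : Measurable (fun x : X => ∫⁻ y, w x y * P0 x y ∂ν) := hm0.lintegral_prod_right'
  have hmi2 : Measurable (fun x : X => ∫⁻ y, w x y * q y ∂ν) := hm2.lintegral_prod_right'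
  have hJ : ∫⁻ x, ∫⁻ y, w x y * q y ∂ν ∂ν ≤ V * ∫⁻ x, q x ∂ν := by
    rw [lintegral_lintegral_swap hm2.aemeasurable, ← lintegral_const_mul _ hq]
    apply lintegral_mono
    intro y
    dsimp only
    simp_rw [fun x => hsym x y]
    rw [lintegral_mul_const _ (hwx y)]
    exact mul_le_mul' (hwb y) le_rfl
  have hin : ∀ x : X, ∑' α, ∫⁻ y, w x y * P α x y ∂ν ≤
      (∫⁻ y, w x y * P0 x y ∂ν) +
        (a * (V * q x) + (a * (∫⁻ y, w x y * q y ∂ν) + b * N0 * V)) := by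
    intro x
    rw [← lintegral_tsum (fun α => (hmx α x).aemeasurable)]
    have h1 : ∫⁻ y, ∑' α, w x y * P α x y ∂ν ≤
        ∫⁻ y, (w x y * P0 x y + (a * q x * w x y + (a * (w x y * q y) + b * N0 * w x y))) ∂ν := by
      apply lintegral_mono
      intro y
      dsimp only
      rw [ENNReal.tsum_mul_left]
      refine (mul_le_mul' le_rfl (h x y)).trans (le_of_eq ?_)
      ring
    refine h1.trans ?_
    rw [lintegral_add_left (hm0x x), lintegral_add_left ((hwx x).const_mul _),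
      lintegral_add_left ((hm2x x).const_mul _), lintegral_const_mul _ (hwx x),
      lintegral_const_mul _ (hm2x x), lintegral_const_mul _ (hwx x)]
    refine add_le_add le_rfl (add_le_add ?_ (add_le_add le_rfl ?_))
    · refine (mul_le_mul' le_rfl (hwb x)).trans (le_of_eq ?_)
      ring
    · exact mul_le_mul' le_rfl (hwb x)
  rw [← lintegral_tsum (fun α => (hmi α).aemeasurable)]
  refine (lintegral_mono hin).trans ?_
  rw [lintegral_add_left hmi0, lintegral_add_left ((hq.const_mul _).const_mul _),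
    lintegral_add_left (hmi2.const_mul _), lintegral_const_mul _ (hq.const_mul _),
    lintegral_const_mul _ hq, lintegral_const_mul _ hmi2, lintegral_const]
  exact add_le_add le_rfl (add_le_add le_rfl (add_le_add (mul_le_mul' le_rfl hJ) le_rfl))

/-- potential energy -/
theorem vp (hTF : S_TF) {v : ℝ → ℝ≥0∞} (hv : Measurable v) {v₁ : ℝ}
    (hv1 : ∫⁻ z : Fin n → ℝ, v (el z) ≤ ENNReal.ofReal v₁) (hv0 : 0 ≤ v₁)
    {I : Type} [Fintype I] {u : I → Tor n L → ℝ} {ω M : ℝ} (hω : 0 < ω)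
    {A : Type} [Countable A] {Lα : A → (Multiset (Tor n L) → ℂ) → Multiset (Tor n L) → ℂ}
    {c : A → I → ℂ} (hI : IsIns volume u ω M Lα c)
    {F : Multiset (Tor n L) → ℂ} (hF : EB F) :
    ∑' α, Vp v (Lα α F) ≤ Vp v F + ENNReal.ofReal (2 * ω * v₁) * nuE volume F +
      ENNReal.ofReal (25 * ω ^ 2 * v₁ * L ^ n) * nE volume F := by
  have hL : 0 < L := Fact.out
  have hw : Measurable (fun p : Tor n L × Tor n L => v (tdist p.1 p.2)) :=
    ((hTF n L).2.2.2.2.2.2.2 v hv).1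
  have hwb : ∀ x : Tor n L, ∫⁻ y, v (tdist x y) ≤ ENNReal.ofReal v₁ :=
    fun x => (((hTF n L).2.2.2.2.2.2.2 v hv).2 x).trans hv1
  have h2 := vp_abs (volume : Measure (Tor n L)) (fun x y => v (tdist x y))
    (fun α x y => nE volume (an y (an x (Lα α F)))) (fun x y => nE volume (an y (an x F)))
    (fun x => nE volume (an x F)) (ENNReal.ofReal (2 * ω)) (ENNReal.ofReal (49 * ω ^ 2))
    (nE volume F) (ENNReal.ofReal v₁) hw (fun α => meas_an2 (hI.eb F hF α)) (meas_an2 hF)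
    (meas_an hF) (fun x y => by rw [tdist_symm]) hwb (fun x y => hI.pair F hF x y)
  have h0 : ∫⁻ x, nE volume (an x F) = nuE volume F := rfl
  rw [h0, (hTF n L).1] at h2
  unfold Vp
  rw [ENNReal.tsum_mul_left]
  refine (mul_le_mul' le_rfl h2).trans ?_
  have e1 : ENNReal.ofReal (2 * ω * v₁) = ENNReal.ofReal (2 * ω) * ENNReal.ofReal v₁ :=
    ENNReal.ofReal_mul (by positivity)
  have e2 : (2 : ℝ≥0∞)⁻¹ * ENNReal.ofReal (49 * ω ^ 2) * ENNReal.ofReal v₁ *
      ENNReal.ofReal (L ^ n) ≤ ENNReal.ofReal (25 * ω ^ 2 * v₁ * L ^ n) := by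
    have h3 : (2 : ℝ≥0∞)⁻¹ = ENNReal.ofReal (2⁻¹) := by
      rw [ENNReal.ofReal_inv_of_pos (by norm_num)]
      simp
    rw [h3, ← ENNReal.ofReal_mul (by positivity), ← ENNReal.ofReal_mul (by positivity),
      ← ENNReal.ofReal_mul (by positivity)]
    apply ENNReal.ofReal_le_ofReal
    have : 0 ≤ ω ^ 2 * v₁ * L ^ n := by positivity
    nlinarith
  have e3 : (2 : ℝ≥0∞)⁻¹ * 2 = 1 := ENNReal.inv_mul_cancel (by norm_num) (by norm_num)
  rw [e1, add_assoc]
  generalize (∫⁻ x, ∫⁻ y, v (tdist x y) * nE volume (an y (an x F))) = T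
  generalize nuE volume F = U
  generalize nE volume F = W at *
  calc 2⁻¹ * (T + (ENNReal.ofReal (2 * ω) * (ENNReal.ofReal v₁ * U) +
        (ENNReal.ofReal (2 * ω) * (ENNReal.ofReal v₁ * U) +
        ENNReal.ofReal (49 * ω ^ 2) * W * ENNReal.ofReal v₁ *
          ENNReal.ofReal (L ^ n))))
      = 2⁻¹ * T + ((2⁻¹ * 2) * (ENNReal.ofReal (2 * ω) * ENNReal.ofReal v₁ * U) +
        (2⁻¹ * ENNReal.ofReal (49 * ω ^ 2) * ENNReal.ofReal v₁ *
          ENNReal.ofReal (L ^ n)) * W) := by ring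
    _ ≤ _ := by
      rw [e3, one_mul]
      exact add_le_add le_rfl (add_le_add le_rfl (mul_le_mul' e2 le_rfl))

end

theorem proof_de (hTF : S_TF) : S_DE := by
  intro n L _ μ K v I _ u ω M x v₁ s A _ Lα c hK hv hs hω hx hv₁ hs0 hI hvi hsu hb F hF
  have hL : 0 < L := Fact.out
  unfold en ken
  rw [ENNReal.tsum_add, ENNReal.tsum_add, ENNReal.tsum_mul_left]
  have h1 := kp hTF hω hI s hsu hF
  have h2 := hp hTF hK hω hI s hs hsu hF
  have h3 := vp hTF hv hvi hv₁ hω hI hF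
  set KK := ∑ d : Fin n, (⨆ k : ℕ, (4 : ℝ≥0∞) ^ k *
        ENNReal.ofReal (s (Pi.single d ((2 : ℝ)⁻¹ ^ k)))) with hKK
  set HH := ∫⁻ z, K z * ENNReal.ofReal (s z) with hHH
  have e : ENNReal.ofReal ω * (nE volume F * ENNReal.ofReal (L ^ n)) * (μ * KK + 2⁻¹ * HH) +
      ENNReal.ofReal (25 * ω ^ 2 * v₁ * L ^ n) * nE volume F ≤
      ENNReal.ofReal ((25 * ω ^ 2 * v₁ + ω * x) * L ^ n) * nE volume F := by
    have e1 : ENNReal.ofReal ((25 * ω ^ 2 * v₁ + ω * x) * L ^ n) =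
        ENNReal.ofReal ω * ENNReal.ofReal (L ^ n) * ENNReal.ofReal x +
          ENNReal.ofReal (25 * ω ^ 2 * v₁ * L ^ n) := by
      rw [← ENNReal.ofReal_mul hω.le, ← ENNReal.ofReal_mul (by positivity),
        ← ENNReal.ofReal_add (by positivity) (by positivity)]
      congr 1
      ring
    rw [e1, add_mul]
    refine add_le_add ((mul_le_mul' le_rfl hb).trans (le_of_eq ?_)) le_rfl
    ring
  calc μ * ∑' α, Kp (Lα α F) + ∑' α, Hp K (Lα α F) + ∑' α, Vp v (Lα α F)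
      ≤ μ * (Kp F + ENNReal.ofReal ω * (nE volume F * ENNReal.ofReal (L ^ n)) * KK) +
        (Hp K F + ENNReal.ofReal ω * (nE volume F * ENNReal.ofReal (L ^ n)) * (2⁻¹ * HH)) +
        (Vp v F + ENNReal.ofReal (2 * ω * v₁) * nuE volume F +
          ENNReal.ofReal (25 * ω ^ 2 * v₁ * L ^ n) * nE volume F) :=
        add_le_add (add_le_add (mul_le_mul' le_rfl h1) h2) h3
    _ = μ * Kp F + Hp K F + Vp v F + ENNReal.ofReal (2 * ω * v₁) * nuE volume F +
        (ENNReal.ofReal ω * (nE volume F * ENNReal.ofReal (L ^ n)) * (μ * KK + 2⁻¹ * HH) +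
          ENNReal.ofReal (25 * ω ^ 2 * v₁ * L ^ n) * nE volume F) := by ring
    _ ≤ _ := add_le_add le_rfl e

end Pool.Agent.W741.CB
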